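import Pool.Agent.Lib.MP_54f242_pr.Exc.Chi

/-!
# The Hausdorff dimension of the set of exceptional `k`

The definitions (`Vtx`, `Bond`, `openGraph`, `cluster`, `law`, `tau`, `chi`, `tauHat`, `torus`) are
in `Pool.Agent.Lib.MP_54f242_pr.Defs`; the model is that of the frozen statement `S19327`.
-/

set_option autoImplicit false
set_option linter.deprecated false

open MeasureTheory
open scoped ENNReal NNReal
open Pool.Agent.Lib.MP_54f242_pr

namespace Pool.Agent.Results.MP_54f242_pr.ExceptionalDimension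

/-- For every dimension `d` and every `s ≥ 0` there is a set `E` of Hausdorff dimension at most
`d - s` such that for every `k` of the torus outside `E` there is a constant `C` with
`0 ≤ τ̂_p(k) ≤ C E_p[(1 + diam C(0))^s]` for all `p` with finite susceptibility and, if `s ≤ 1`,
also `τ̂_p(k) ≤ C χ(p)^s`. -/
theorem result (d : ℕ) (s : ℝ) (hs : 0 ≤ s) :
    ∃ E : Set (Fin d → ℝ), dimH E ≤ ENNReal.ofReal ((d : ℝ) - s) ∧
      ∀ k ∈ torus d, k ∉ E → ∃ C : ℝ, ∀ (p : ℝ≥0) (hp : p ≤ 1), Summable (tau d p hp) →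
        0 ≤ tauHat d p hp k ∧
        ENNReal.ofReal (tauHat d p hp k) ≤ ENNReal.ofReal C *
          ∫⁻ ω, (1 + Metric.ediam (cluster ω)) ^ s ∂(law d p hp) ∧
        (s ≤ 1 → tauHat d p hp k ≤ C * chi d p hp ^ s) := by
  refine ⟨Exc.exc d s, Exc.dimH_exc hs, fun k hk hkE => ?_⟩
  have h1 : ∃ C : ℝ, ∀ i : Par d, ENNReal.ofReal (tauHat d i.1 i.le_one k) ≤
      ENNReal.ofReal C * Exc.dm s i := by
    by_contra hcon
    push Not at hcon
    exact hkE ⟨hk, hcon⟩
  obtain ⟨C, hC⟩ := h1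
  refine ⟨max C 0, fun p hp hsum => ⟨tauHat_nonneg p hp hsum k, ?_, fun hs1 => ?_⟩⟩
  · refine (hC ⟨p, hp, hsum⟩).trans ?_
    exact mul_le_mul' (ENNReal.ofReal_le_ofReal (le_max_left C 0)) le_rfl
  · have h2 : ENNReal.ofReal (tauHat d p hp k) ≤ ENNReal.ofReal (max C 0 * chi d p hp ^ s) := by
      refine (hC ⟨p, hp, hsum⟩).trans ?_
      rw [ENNReal.ofReal_mul (le_max_right _ _)]
      exact mul_le_mul' (ENNReal.ofReal_le_ofReal (le_max_left C 0))
        (Exc.dmom_le hs hs1 p hp hsum)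
    have hchi : 1 ≤ chi d p hp := one_le_sus ⟨p, hp, hsum⟩
    exact (ENNReal.ofReal_le_ofReal_iff
      (mul_nonneg (le_max_right _ _) (Real.rpow_nonneg (by linarith) _))).1 h2

end Pool.Agent.Results.MP_54f242_pr.ExceptionalDimension
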