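import Pool.Agent.Lib.MP_54f242_pr.LogMoment

/-!
# The infrared bound for almost every `k`, up to a power of the logarithm

The definitions (`Vtx`, `Bond`, `openGraph`, `law`, `tau`, `chi`, `tauHat`, `torus`) are
in `Pool.Agent.Lib.MP_54f242_pr.Defs`; the model is that of the frozen statement `S19327`.
-/

set_option autoImplicit false
set_option linter.deprecated false

open MeasureTheory
open scoped ENNReal NNReal
open Pool.Agent.Lib.MP_54f242_pr

namespace Pool.Agent.Results.MP_54f242_pr.LogInfrared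

/-- For every `ε > 0` there is `C` such that in every dimension `d` there is a measurable function
`A` on the torus with mean at most `C` such that, for all `p` with finite susceptibility and all
`k`, `τ̂_p(k) ≤ A(k) (1 + log χ(p))^(3+ε)`. -/
theorem result (ε : ℝ) (hε : 0 < ε) :
    ∃ C : ℝ, ∀ d : ℕ, ∃ A : (Fin d → ℝ) → ℝ≥0∞, Measurable A ∧
      ∫⁻ k in torus d, A k ≤ ENNReal.ofReal (C * (2 * Real.pi) ^ d) ∧
      ∀ (p : ℝ≥0) (hp : p ≤ 1), Summable (tau d p hp) → ∀ k : Fin d → ℝ,
        0 ≤ tauHat d p hp k ∧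
        ENNReal.ofReal (tauHat d p hp k) ≤
          A k * ENNReal.ofReal ((1 + Real.log (chi d p hp)) ^ (3 + ε)) := by
  obtain ⟨C, hC⟩ := log_infrared ε hε
  refine ⟨C, fun d => ?_⟩
  obtain ⟨A, h1, h2, h3⟩ := hC d
  exact ⟨A, h1, h2, fun p hp hs k => ⟨tauHat_nonneg p hp hs k, h3 p hp hs k⟩⟩

end Pool.Agent.Results.MP_54f242_pr.LogInfrared
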