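import Pool.Agent.Lib.MP_54f242_pr.LogMoment

/-!
# The mean over the torus of the supremum of `τ̂_q(k)` over `q ≤ p`

The definitions (`Vtx`, `Bond`, `openGraph`, `cluster`, `law`, `tau`, `tauHat`, `torus`) are
in `Pool.Agent.Lib.MP_54f242_pr.Defs`; the model is that of the frozen statement `S19327`.
-/

set_option autoImplicit false
set_option linter.deprecated false

open MeasureTheory
open scoped ENNReal NNReal
open Pool.Agent.Lib.MP_54f242_pr

namespace Pool.Agent.Results.MP_54f242_pr.MeanSupremum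

/-- In every dimension and for every `p` with finite susceptibility, the mean over the torus of
the supremum over `q ≤ p` of `τ̂_q(k)` is at most `16 E_p[(1 + log |C|)³]`. -/
theorem result (d : ℕ) (p : ℝ≥0) (hp : p ≤ 1) (hs : Summable (tau d p hp)) :
    ∃ A : (Fin d → ℝ) → ℝ≥0∞, Measurable A ∧
      ∫⁻ k in torus d, A k ≤
        16 * (∫⁻ ω, ENNReal.ofReal ((1 + Real.log (cluster ω).ncard) ^ 3) ∂(law d p hp)) *
          ENNReal.ofReal ((2 * Real.pi) ^ d) ∧
      ∀ (q : ℝ≥0) (hq : q ≤ 1), q ≤ p → ∀ k : Fin d → ℝ,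
        0 ≤ tauHat d q hq k ∧ ENNReal.ofReal (tauHat d q hq k) ≤ A k := by
  let i : Par d := ⟨p, hp, hs⟩
  refine ⟨maxFun1 i, measurable_maxFun1 i, lintegral_maxFun1_le i, fun q hq hqp k => ?_⟩
  have hsq : Summable (tau d q hq) :=
    Summable.of_nonneg_of_le (fun x => tau_nonneg q hq x) (fun x => tau_mono hq hp hqp x) hs
  exact ⟨tauHat_nonneg q hq hsq k, le_maxFun1 i ⟨q, hq, hsq⟩ hqp k⟩

end Pool.Agent.Results.MP_54f242_pr.MeanSupremum
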