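import Pool.Agent.Lib.MP_54f242_pr.Energy

/-!
# Comparison of percolation on the cubic lattice with percolation on the regular tree

The definitions (`Vtx`, `Bond`, `openGraph`, `law`, `tau`, `chi`, `tauHat`) are in
`Pool.Agent.Lib.MP_54f242_pr.Defs`; the model is that of the frozen statement `S19327`.
-/

set_option autoImplicit false
set_option linter.deprecated false

open MeasureTheory
open scoped ENNReal NNReal
open Pool.Agent.Lib.MP_54f242_pr

namespace Pool.Agent.Results.MP_54f242_pr.TreeComparison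

/-- For every `d ≥ 1` and every `p` with finite susceptibility: (1) the two-point function is a
subsolution of the equation satisfied by the two-point function of the `2d`-regular tree; (2) its
Fourier transform satisfies `|1 - K(k) τ̂(k)| ≤ 1 - K(0) χ`,
`K(k) = (1 - 2 d p D̂(k) + (2d-1)p²)/(1-p²)`; (3) the infrared bound with an explicit error term;
(4) a bound for the Dirichlet energy of the two-point function. -/
theorem result (d : ℕ) (hd : 1 ≤ d) (p : ℝ≥0) (hp : p ≤ 1) (hs : Summable (tau d p hp)) :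
    (∀ x : Vtx d, (1 + (2 * d - 1) * (p : ℝ) ^ 2) * tau d p hp x
      - p * ∑ i : Fin d, (tau d p hp (x + Pi.single i 1) + tau d p hp (x - Pi.single i 1))
      ≤ if x = 0 then 1 - (p : ℝ) ^ 2 else 0) ∧
    (∀ k : Fin d → ℝ,
      |(1 - (p : ℝ) ^ 2) - (1 - 2 * p * ∑ i, Real.cos (k i) + (2 * d - 1) * (p : ℝ) ^ 2) *
        tauHat d p hp k| ≤
      (1 - (p : ℝ) ^ 2) + (1 - p) * ((2 * d - 1) * p - 1) * chi d p hp) ∧
    (∀ k : Fin d → ℝ,
      2 * d * p * ((1 - (1 / (d : ℝ)) * ∑ i, Real.cos (k i)) * tauHat d p hp k) ≤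
      2 * (1 - (p : ℝ) ^ 2) +
        (1 - p) * ((2 * d - 1) * p - 1) * (chi d p hp + tauHat d p hp k)) ∧
    p * ∑' x : Vtx d, ∑ i : Fin d, (tau d p hp (x + Pi.single i 1) - tau d p hp x) ^ 2 ≤
      (1 - (p : ℝ) ^ 2) + (1 - p) * ((2 * d - 1) * p - 1) * ∑' x : Vtx d, tau d p hp x ^ 2 :=
  ⟨fun x => kernel_le hd p hp x, fun k => Energy.fourier_bound hd p hp hs k,
    fun k => Energy.infrared_error hd p hp hs k, Energy.energy_bound hd p hp hs⟩

end Pool.Agent.Results.MP_54f242_pr.TreeComparison
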